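import Pool.Agent.W102.TD.Defs

/-! # TD-UP -/

set_option autoImplicit false

namespace Pool.Agent.W822.TD

open Finset

theorem UP : Pool.Agent.W102.TD.UP := by
  classical
  intro m
  set A : Finset (Fin (2 * m)) := univ.filter (fun i => m ≤ i.val) with hA
  have hAc : A.card ≤ m := by
    have hsub : A ⊆ (univ : Finset (Fin m)).image
        (fun i : Fin m => (⟨m + i, by omega⟩ : Fin (2 * m))) := by
      intro i hi
      rw [hA, mem_filter] at hi
      rw [mem_image]
      refine ⟨⟨i.val - m, by omega⟩, mem_univ _, ?_⟩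
      ext
      show m + (i.val - m) = i.val
      omega
    refine (card_le_card hsub).trans (card_image_le.trans ?_)
    rw [card_univ, Fintype.card_fin]
  refine ⟨fun v => ∏ i ∈ A, (1 + v i), ?_, ?_, fun S => if S ⊆ A then 1 else 0, ?_, ?_⟩
  · intro h
    have h0 := congrFun h 0
    simp at h0
  · intro v hv
    obtain ⟨i, hi⟩ := Function.ne_iff.1 hv
    have hi' : v ⟨m + i, by omega⟩ ≠ 0 := hi
    have h1 : ∀ z : ZMod 2, z ≠ 0 → 1 + z = 0 := by decide
    refine prod_eq_zero (i := (⟨m + i, by omega⟩ : Fin (2 * m))) ?_ (h1 _ hi')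
    rw [hA, mem_filter]
    exact ⟨mem_univ _, Nat.le_add_right _ _⟩
  · intro S hS
    by_cases h : S ⊆ A
    · exact (card_le_card h).trans hAc
    · exact absurd (if_neg h) hS
  · intro v
    show ∏ i ∈ A, (1 + v i) = _
    rw [Finset.prod_one_add]
    simp only [ite_mul, one_mul, zero_mul]
    rw [← Finset.sum_filter]
    refine Finset.sum_congr ?_ fun _ _ => rfl
    ext S
    simp [mem_powerset]

end Pool.Agent.W822.TD
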